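import Mathlib
import Pool.Agent.Helper35.PX.Goals

/-!
MP_bec853_al: bounded cancellation with the volume constant.
-/

namespace Pool.Agent.Helper89.PX

open FreeGroup Pool.Agent.Helper35.PP

section fold

variable {ι V α : Type}

/-- reduced path relation -/
def RP (st : ι × Bool → V) (x y : ι × Bool) : Prop := st (nv x) = st y ∧ y ≠ nv x

/-- label of a step -/
def lt (lab : ι → α) (x : ι × Bool) : α × Bool := (lab x.1, x.2)

variable [DecidableEq ι] [DecidableEq V]

/-- replace `e2` by `e1` -/
def RR (e1 e2 : ι) (x : ι × Bool) : ι × Bool := if x.1 = e2 then (e1, x.2) else x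

/-- cancelling pair -/
def CP (e1 e2 : ι) (b : Bool) (x y : ι × Bool) : Prop :=
  (x = (e1, !b) ∧ y = (e2, b)) ∨ (x = (e2, !b) ∧ y = (e1, b))

instance (e1 e2 : ι) (b : Bool) (x y : ι × Bool) : Decidable (CP e1 e2 b x y) := by
  unfold CP; infer_instance

/-- image of a path under a fold -/
def rho (e1 e2 : ι) (b : Bool) : List (ι × Bool) → List (ι × Bool)
  | [] => []
  | [x] => [RR e1 e2 x]
  | x :: y :: l => if CP e1 e2 b x y then rho e1 e2 b l else RR e1 e2 x :: rho e1 e2 b (y :: l)

/-- the identification of vertices -/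
def ph (w1 w2 : V) (v : V) : V := if v = w2 then w1 else v

omit [DecidableEq V] in
lemma RR_nv (e1 e2 : ι) (x : ι × Bool) : nv (RR e1 e2 x) = RR e1 e2 (nv x) := by
  unfold RR nv
  by_cases h : x.1 = e2 <;> simp [h]

omit [DecidableEq V] in
lemma RR_eq {e1 e2 : ι} {x y : ι × Bool} (h : RR e1 e2 x = RR e1 e2 y) (hne : x ≠ y) :
    (∃ c, x = (e1, c) ∧ y = (e2, c)) ∨ (∃ c, x = (e2, c) ∧ y = (e1, c)) := by
  obtain ⟨a, c⟩ := x
  obtain ⟨a', c'⟩ := y
  unfold RR at h
  by_cases h1 : a = e2 <;> by_cases h2 : a' = e2
  · simp only [h1, h2, if_true, Prod.mk.injEq, true_and] at h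
    exact absurd (by rw [h1, h2, h]) hne
  · simp only [h1, h2, if_true, if_false, Prod.mk.injEq] at h
    right
    exact ⟨c, by rw [h1], by rw [← h.1, ← h.2]⟩
  · simp only [h1, h2, if_true, if_false, Prod.mk.injEq] at h
    left
    exact ⟨c, by rw [← h.1], by rw [h2, ← h.2]⟩
  · simp only [h1, h2, if_false] at h
    exact absurd h hne

variable {st : ι × Bool → V} {e1 e2 : ι} {b : Bool}

/-- the data of a fold -/
structure FD (st : ι × Bool → V) (e1 e2 : ι) (b : Bool) : Prop where
  ne : e1 ≠ e2
  s : st (e1, b) = st (e2, b)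
  w : st (e1, !b) ≠ st (e2, !b)

lemma F1 (H : FD st e1 e2 b) (x : ι × Bool) :
    ph (st (e1, !b)) (st (e2, !b)) (st (RR e1 e2 x)) = ph (st (e1, !b)) (st (e2, !b)) (st x) := by
  obtain ⟨a, c⟩ := x
  unfold RR
  by_cases h : a = e2
  · subst h
    simp only [if_true]
    by_cases hc : c = b
    · subst hc
      rw [H.s]
    · have hc' : c = !b := by cases c <;> cases b <;> simp_all
      subst hc'
      unfold ph
      simp [H.w]
  · simp [h]

omit [DecidableEq V] in
lemma F3 (H : FD st e1 e2 b) {x y : ι × Bool} (h : RP st x y) (hc : ¬ CP e1 e2 b x y) :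
    RR e1 e2 y ≠ nv (RR e1 e2 x) := by
  intro he
  rw [RR_nv] at he
  rcases RR_eq he h.2 with ⟨c, h1, h2⟩ | ⟨c, h1, h2⟩
  · have hx : x = (e2, !c) := by rw [← nv_nv x, h2]; rfl
    by_cases hcb : c = b
    · subst hcb
      exact hc (Or.inr ⟨hx, h1⟩)
    · have hc' : c = !b := by cases c <;> cases b <;> simp_all
      subst hc'
      have := h.1
      rw [h1, h2] at this
      exact H.w this.symm
  · have hx : x = (e1, !c) := by rw [← nv_nv x, h2]; rfl
    by_cases hcb : c = b
    · subst hcb
      exact hc (Or.inl ⟨hx, h1⟩)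
    · have hc' : c = !b := by cases c <;> cases b <;> simp_all
      subst hc'
      have := h.1
      rw [h1, h2] at this
      exact H.w this

lemma RP_RR (H : FD st e1 e2 b) {x y : ι × Bool} (h : RP st x y) (hc : ¬ CP e1 e2 b x y) :
    RP (fun z => ph (st (e1, !b)) (st (e2, !b)) (st z)) (RR e1 e2 x) (RR e1 e2 y) := by
  refine ⟨?_, F3 H h hc⟩
  simp only
  rw [RR_nv, F1 H, F1 H, h.1]

omit [DecidableEq ι] [DecidableEq V] in
lemma CP_sym (e1 e2 : ι) (b : Bool) (x y : ι × Bool) : CP e1 e2 b x y ↔ CP e2 e1 b x y := by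
  unfold CP
  exact or_comm

/-- consecutive steps around a cancelling pair -/
lemma F4 (H : FD st e1 e2 b) {x y y' z : ι × Bool} (h1 : RP st x y) (hc : CP e1 e2 b y y')
    (h3 : RP st y' z) :
    RP (fun z => ph (st (e1, !b)) (st (e2, !b)) (st z)) (RR e1 e2 x) (RR e1 e2 z) := by
  have key : st (nv x) ≠ st z ∧ ph (st (e1, !b)) (st (e2, !b)) (st (nv x)) =
      ph (st (e1, !b)) (st (e2, !b)) (st z) := by
    rcases hc with ⟨hy, hy'⟩ | ⟨hy, hy'⟩
    · have ha : st (nv x) = st (e1, !b) := by rw [h1.1, hy]
      have hb : st z = st (e2, !b) := by rw [← h3.1, hy']; rfl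
      rw [ha, hb]
      refine ⟨H.w, ?_⟩
      simp [ph, H.w]
    · have ha : st (nv x) = st (e2, !b) := by rw [h1.1, hy]
      have hb : st z = st (e1, !b) := by rw [← h3.1, hy']; rfl
      rw [ha, hb]
      refine ⟨H.w.symm, ?_⟩
      simp [ph, H.w]
  refine ⟨?_, ?_⟩
  · simp only
    rw [RR_nv, F1 H, F1 H, key.2]
  · intro he
    rw [RR_nv] at he
    have hne : z ≠ nv x := by
      intro h
      exact key.1 (by rw [h])
    rcases RR_eq he hne with ⟨c, hz, hx⟩ | ⟨c, hz, hx⟩
    · by_cases hcb : c = b
      · subst hcb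
        apply key.1
        rw [hz, hx, H.s]
      · have hc' : c = !b := by cases c <;> cases b <;> simp_all
        subst hc'
        rcases hc with ⟨hy, hy'⟩ | ⟨hy, hy'⟩
        · have ha := h1.1
          rw [hx, hy] at ha
          exact H.w ha.symm
        · apply h3.2
          rw [hz, hy']
          rfl
    · by_cases hcb : c = b
      · subst hcb
        apply key.1
        rw [hz, hx, H.s]
      · have hc' : c = !b := by cases c <;> cases b <;> simp_all
        subst hc'
        rcases hc with ⟨hy, hy'⟩ | ⟨hy, hy'⟩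
        · apply h3.2
          rw [hz, hy']
          rfl
        · have ha := h1.1
          rw [hx, hy] at ha
          exact H.w ha

omit [DecidableEq ι] [DecidableEq V] in
lemma F5 (H : FD st e1 e2 b) {y y' z z' : ι × Bool} (hc : CP e1 e2 b y y')
    (h3 : RP st y' z) : ¬ CP e1 e2 b z z' := by
  intro hd
  rcases hc with ⟨hy, hy'⟩ | ⟨hy, hy'⟩ <;> rcases hd with ⟨hz, hz'⟩ | ⟨hz, hz'⟩
  · have := h3.1
    rw [hy', hz] at this
    exact H.w this.symm
  · apply h3.2
    rw [hz, hy']
    rfl
  · apply h3.2
    rw [hz, hy']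
    rfl
  · have := h3.1
    rw [hy', hz] at this
    exact H.w this

lemma rho_chain (H : FD st e1 e2 b) : ∀ (n : ℕ) (L : List (ι × Bool)), L.length ≤ n →
    L.IsChain (RP st) →
    (rho e1 e2 b L).IsChain (RP (fun z => ph (st (e1, !b)) (st (e2, !b)) (st z))) := by
  intro n
  induction n with
  | zero =>
    intro L hL _
    have : L = [] := List.length_eq_zero_iff.1 (by omega)
    subst this
    simp [rho]
  | succ n ih =>
    intro L hL hch
    match L, hL, hch with
    | [], _, _ => simp [rho]
    | [x], _, _ => simp [rho]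
    | x :: y :: l, hL, hch =>
      simp only [List.length_cons] at hL
      rw [List.isChain_cons_cons] at hch
      rw [rho]
      split_ifs with hc
      · exact ih l (by omega) (List.IsChain.tail hch.2)
      · have hy := ih (y :: l) (by simp only [List.length_cons]; omega) hch.2
        match l, hL, hch, hy with
        | [], _, hch, _ =>
          simp only [rho]
          rw [List.isChain_cons_cons]
          exact ⟨RP_RR H hch.1 hc, by simp⟩
        | y' :: l', hL, hch, hy =>
          rw [rho] at hy ⊢
          split_ifs at hy ⊢ with hc2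
          · have hch2 := hch.2
            rw [List.isChain_cons_cons] at hch2
            match l', hL, hch2, hy with
            | [], _, _, _ => simp [rho]
            | [z], _, hch2, _ =>
              simp only [rho]
              rw [List.isChain_cons_cons]
              have := hch2.2
              rw [List.isChain_cons_cons] at this
              exact ⟨F4 H hch.1 hc2 this.1, by simp⟩
            | z :: z' :: l'', hL, hch2, hy =>
              have h3 := hch2.2
              rw [List.isChain_cons_cons] at h3
              rw [rho, if_neg (F5 H hc2 h3.1)] at hy ⊢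
              rw [List.isChain_cons_cons]
              exact ⟨F4 H hch.1 hc2 h3.1, hy⟩
          · rw [List.isChain_cons_cons]
            exact ⟨RP_RR H hch.1 hc, hy⟩

omit [DecidableEq V] in
lemma lt_RR {lab : ι → α} (hl : lab e1 = lab e2) (x : ι × Bool) :
    lt lab (RR e1 e2 x) = lt lab x := by
  unfold lt RR
  by_cases h : x.1 = e2
  · simp [h, hl]
  · simp [h]

omit [DecidableEq ι] [DecidableEq V] in
lemma lt_CP {lab : ι → α} (hl : lab e1 = lab e2) {x y : ι × Bool} (h : CP e1 e2 b x y) :
    el (lt lab x) * el (lt lab y) = 1 := by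
  have : lt lab y = nv (lt lab x) := by
    rcases h with ⟨h1, h2⟩ | ⟨h1, h2⟩
    · rw [h1, h2]; simp [lt, nv, hl]
    · rw [h1, h2]; simp [lt, nv, hl]
  rw [this, el_mul_el_nv]

/-- label of a path -/
def lb (lab : ι → α) (L : List (ι × Bool)) : FreeGroup α := FreeGroup.mk (L.map (lt lab))

omit [DecidableEq ι] in
lemma lb_cons (lab : ι → α) (x : ι × Bool) (L : List (ι × Bool)) :
    lb lab (x :: L) = el (lt lab x) * lb lab L := by
  unfold lb el
  rw [FreeGroup.mul_mk]
  rfl

omit [DecidableEq ι] in
lemma lb_nil (lab : ι → α) : lb lab [] = 1 := rfl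

omit [DecidableEq ι] in
lemma lb_append (lab : ι → α) (L M : List (ι × Bool)) :
    lb lab (L ++ M) = lb lab L * lb lab M := by
  unfold lb
  rw [FreeGroup.mul_mk, List.map_append]

lemma lb_rho {lab : ι → α} (hl : lab e1 = lab e2) : ∀ (n : ℕ) (L : List (ι × Bool)),
    L.length ≤ n → lb lab (rho e1 e2 b L) = lb lab L := by
  intro n
  induction n with
  | zero =>
    intro L hL
    have : L = [] := List.length_eq_zero_iff.1 (by omega)
    subst this
    simp [rho]
  | succ n ih =>
    intro L hL
    match L, hL with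
    | [], _ => simp [rho]
    | [x], _ => rw [rho, lb_cons, lb_cons, lt_RR hl]
    | x :: y :: l, hL =>
      simp only [List.length_cons] at hL
      rw [rho]
      split_ifs with hc
      · rw [ih l (by omega), lb_cons, lb_cons, ← mul_assoc, lt_CP hl hc, one_mul]
      · rw [lb_cons, ih (y :: l) (by simp only [List.length_cons]; omega), lt_RR hl,
          lb_cons lab x]

lemma norm_el [DecidableEq α] (x : α × Bool) : (el x).norm = 1 := by
  unfold FreeGroup.norm
  rw [toWord_el]
  rfl

lemma rho_split [DecidableEq α] {lab : ι → α} (hl : lab e1 = lab e2) :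
    ∀ (n : ℕ) (L1 L2 : List (ι × Bool)), (L1 ++ L2).length ≤ n →
    ∃ M1 M2 k, rho e1 e2 b (L1 ++ L2) = M1 ++ M2 ∧ FreeGroup.norm k ≤ 1 ∧
      lb lab L1 = lb lab M1 * k ∧ lb lab L2 = k⁻¹ * lb lab M2 := by
  intro n
  induction n with
  | zero =>
    intro L1 L2 hL
    rw [List.length_append] at hL
    have h1 : L1 = [] := List.length_eq_zero_iff.1 (by omega)
    have h2 : L2 = [] := List.length_eq_zero_iff.1 (by omega)
    subst h1 h2
    exact ⟨[], [], 1, by simp [rho], by simp, by simp, by simp⟩
  | succ n ih =>
    intro L1 L2 hL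
    match L1, hL with
    | [], hL =>
      refine ⟨[], rho e1 e2 b L2, 1, by simp, by simp, by simp, ?_⟩
      rw [lb_rho hl _ L2 le_rfl, inv_one, one_mul]
    | [x], hL =>
      match L2, hL with
      | [], _ =>
        refine ⟨[RR e1 e2 x], [], 1, by simp [rho], by simp, ?_, by simp⟩
        rw [mul_one, lb_cons, lb_cons, lt_RR hl]
      | y :: l, hL =>
        simp only [List.length_cons, List.length_append, List.length_nil] at hL
        simp only [List.cons_append, List.nil_append]
        rw [rho]
        split_ifs with hc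
        · refine ⟨[], rho e1 e2 b l, el (lt lab x), by simp, by rw [norm_el], ?_, ?_⟩
          · rw [lb_nil, one_mul, lb_cons, lb_nil, mul_one]
          · rw [lb_rho hl _ l le_rfl, lb_cons]
            congr 1
            exact (inv_eq_of_mul_eq_one_right (lt_CP hl hc)).symm
        · refine ⟨[RR e1 e2 x], rho e1 e2 b (y :: l), 1, by simp, by simp, ?_, ?_⟩
          · rw [lb_cons, lb_cons, lt_RR hl, mul_one]
          · rw [lb_rho hl _ _ le_rfl, inv_one, one_mul]
    | x :: y :: l, hL =>
      simp only [List.length_cons, List.length_append] at hL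
      simp only [List.cons_append]
      rw [rho]
      split_ifs with hc
      · obtain ⟨M1, M2, k, h1, h2, h3, h4⟩ := ih l L2 (by rw [List.length_append]; omega)
        refine ⟨M1, M2, k, h1, h2, ?_, h4⟩
        rw [lb_cons, lb_cons, ← mul_assoc, lt_CP hl hc, one_mul, h3]
      · obtain ⟨M1, M2, k, h1, h2, h3, h4⟩ := ih (y :: l) L2
          (by rw [List.length_append, List.length_cons]; omega)
        refine ⟨RR e1 e2 x :: M1, M2, k, ?_, h2, ?_, h4⟩
        · rw [List.cons_append] at h1
          rw [h1]
          rfl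
        · rw [lb_cons lab x, h3, lb_cons lab (RR e1 e2 x), lt_RR hl, mul_assoc]

lemma rho_mem (he : e1 ≠ e2) {s : Finset ι} (h1 : e1 ∈ s) : ∀ (n : ℕ) (L : List (ι × Bool)),
    L.length ≤ n → (∀ x ∈ L, x.1 ∈ s) → ∀ x ∈ rho e1 e2 b L, x.1 ∈ s.erase e2 := by
  have hR : ∀ x : ι × Bool, x.1 ∈ s → (RR e1 e2 x).1 ∈ s.erase e2 := by
    intro x hx
    unfold RR
    by_cases h : x.1 = e2
    · simp [h, he, h1]
    · simp [h, hx]
  intro n
  induction n with
  | zero =>
    intro L hL _
    have : L = [] := List.length_eq_zero_iff.1 (by omega)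
    subst this
    simp [rho]
  | succ n ih =>
    intro L hL hs
    match L, hL, hs with
    | [], _, _ => simp [rho]
    | [x], _, hs =>
      intro y hy
      simp only [rho, List.mem_singleton] at hy
      rw [hy]
      exact hR x (hs x (by simp))
    | x :: y :: l, hL, hs =>
      simp only [List.length_cons] at hL
      rw [rho]
      split_ifs with hc
      · exact ih l (by omega) (fun z hz => hs z (by simp [hz]))
      · intro z hz
        rw [List.mem_cons] at hz
        rcases hz with rfl | hz
        · exact hR x (hs x (by simp))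
        · exact ih (y :: l) (by simp only [List.length_cons]; omega)
            (fun z hz => hs z (List.mem_cons_of_mem _ hz)) z hz

lemma folded_reduced [DecidableEq α] {s : Finset ι} {lab : ι → α}
    (hf : ∀ x y : ι × Bool, x.1 ∈ s → y.1 ∈ s → lt lab x = lt lab y → st x = st y → x = y)
    {L : List (ι × Bool)} (hL : L.IsChain (RP st)) (hs : ∀ x ∈ L, x.1 ∈ s) :
    (lb lab L).norm = L.length := by
  have hred : FreeGroup.IsReduced (L.map (lt lab)) := by
    unfold FreeGroup.IsReduced
    rw [List.isChain_map]
    induction L with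
    | nil => simp
    | cons x L ih =>
      cases L with
      | nil => simp
      | cons y L =>
        rw [List.isChain_cons_cons] at hL ⊢
        refine ⟨?_, ih hL.2 (fun z hz => hs z (List.mem_cons_of_mem _ hz))⟩
        intro h1
        by_contra h2
        apply hL.1.2
        have h3 : y.2 = !x.2 := by
          simp only [lt] at h2
          cases hx : x.2 <;> cases hy : y.2 <;> simp_all
        apply hf y (nv x) (hs y (by simp)) (hs x (by simp)) _ hL.1.1.symm
        simp only [lt, nv, Prod.mk.injEq] at h1 ⊢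
        exact ⟨h1.symm, h3⟩
  unfold FreeGroup.norm lb
  rw [toWord_mk, hred.reduce_eq, List.length_map]

theorem claim [Fintype α] [DecidableEq α] : ∀ (n : ℕ) (s : Finset ι) (st : ι × Bool → V)
    (lab : ι → α), s.card = n → (∀ a, ∃ e ∈ s, lab e = a) →
    (∀ c : ι → ℤ, ∃ (p : V → ℤ) (q : α → ℤ), ∀ e ∈ s,
      c e = p (st (e, false)) - p (st (e, true)) + q (lab e)) →
    ∀ L1 L2 : List (ι × Bool), (L1 ++ L2).IsChain (RP st) → (∀ x ∈ L1 ++ L2, x.1 ∈ s) →
      (lb lab L1).norm + (lb lab L2).norm + 2 * Fintype.card α ≤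
        (lb lab (L1 ++ L2)).norm + 2 * n := by
  intro n
  induction n with
  | zero =>
    intro s st lab hs hsur _ L1 L2 _ hmem
    have hs0 : s = ∅ := Finset.card_eq_zero.1 hs
    have h0 : L1 ++ L2 = [] := by
      by_contra h
      obtain ⟨x, hx⟩ := List.exists_mem_of_ne_nil _ h
      have := hmem x hx
      rw [hs0] at this
      simp at this
    rw [List.append_eq_nil_iff] at h0
    have hc : Fintype.card α = 0 := by
      rw [Fintype.card_eq_zero_iff]
      refine ⟨fun a => ?_⟩
      obtain ⟨e, he, _⟩ := hsur a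
      rw [hs0] at he
      simp at he
    rw [h0.1, h0.2, hc]
    simp [lb_nil]
  | succ n ih =>
    intro s st lab hs hsur hD L1 L2 hch hmem
    by_cases hf : ∀ x y : ι × Bool, x.1 ∈ s → y.1 ∈ s → lt lab x = lt lab y → st x = st y → x = y
    · rw [folded_reduced hf hch hmem,
        folded_reduced hf (hch.left_of_append) (fun x hx => hmem x (List.mem_append_left _ hx)),
        folded_reduced hf (hch.right_of_append) (fun x hx => hmem x (List.mem_append_right _ hx)),
        List.length_append]
      have : Fintype.card α ≤ n + 1 := by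
        rw [← hs, ← Finset.card_univ]
        apply Finset.card_le_card_of_surjOn lab
        intro a _
        obtain ⟨e, he, h⟩ := hsur a
        exact ⟨e, he, h⟩
      omega
    · push Not at hf
      obtain ⟨⟨e1, b⟩, ⟨e2, b'⟩, h1, h2, hl, hst, hne⟩ := hf
      simp only [lt, Prod.mk.injEq] at hl
      obtain ⟨hl, hb⟩ := hl
      subst hb
      simp only at h1 h2
      have he : e1 ≠ e2 := by
        intro h
        exact hne (by rw [h])
      have hw : st (e1, !b) ≠ st (e2, !b) := by
        intro hw
        obtain ⟨p, q, hpq⟩ := hD (fun e => if e = e2 then 1 else 0)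
        have a1 := hpq e1 h1
        have a2 := hpq e2 h2
        simp only [he, if_false, if_true] at a1 a2
        rw [hl] at a1
        cases b
        · simp only [Bool.not_false] at hw
          rw [hst, hw] at a1
          omega
        · simp only [Bool.not_true] at hw
          rw [hst, hw] at a1
          omega
      have H : FD st e1 e2 b := ⟨he, hst, hw⟩
      obtain ⟨M1, M2, k, r1, r2, r3, r4⟩ := rho_split (b := b) hl _ L1 L2 le_rfl
      have hch' := rho_chain H _ _ le_rfl hch
      have hmem' := rho_mem (b := b) he h1 _ _ le_rfl hmem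
      rw [r1] at hch' hmem'
      have key := ih (s.erase e2) (fun z => ph (st (e1, !b)) (st (e2, !b)) (st z)) lab
        (by rw [Finset.card_erase_of_mem h2]; omega)
        (by
          intro a
          obtain ⟨e, he', h⟩ := hsur a
          by_cases hee : e = e2
          · exact ⟨e1, by simp [he, h1], by rw [hl, ← hee, h]⟩
          · exact ⟨e, by simp [hee, he'], h⟩)
        (by
          intro c
          obtain ⟨p, q, hpq⟩ := hD (fun e => if e = e2 then c e1 else c e)
          refine ⟨p, q, ?_⟩
          have a1 := hpq e1 h1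
          have a2 := hpq e2 h2
          simp only [he, if_false, if_true] at a1 a2
          rw [← hl] at a2
          have hp : p (st (e1, !b)) = p (st (e2, !b)) := by
            cases b
            · simp only [Bool.not_false]
              rw [hst] at a1
              omega
            · simp only [Bool.not_true]
              rw [hst] at a1
              omega
          have hph : ∀ v, p (ph (st (e1, !b)) (st (e2, !b)) v) = p v := by
            intro v
            unfold ph
            split_ifs with h
            · rw [h, hp]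
            · rfl
          intro e he'
          rw [Finset.mem_erase] at he'
          have := hpq e he'.2
          simp only [he'.1, if_false] at this
          rw [this, hph, hph])
        M1 M2 hch' hmem'
      have hlab : lb lab (M1 ++ M2) = lb lab (L1 ++ L2) := by
        rw [← r1, lb_rho hl _ _ le_rfl]
      rw [hlab] at key
      have n1 : (lb lab L1).norm ≤ (lb lab M1).norm + 1 := by
        rw [r3]
        exact (FreeGroup.norm_mul_le _ _).trans (by omega)
      have n2 : (lb lab L2).norm ≤ (lb lab M2).norm + 1 := by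
        rw [r4]
        refine (FreeGroup.norm_mul_le _ _).trans ?_
        rw [FreeGroup.norm_inv_eq]
        omega
      omega

end fold

section rose

variable {α : Type} [DecidableEq α] (θ : FreeGroup α ≃* FreeGroup α)

/-- length of the image of a generator -/
def nn (x : α) : ℕ := (θ (FreeGroup.of x)).norm

/-- letters of the image of a generator -/
def wd (x : α) (k : ℕ) : α × Bool := (θ (FreeGroup.of x)).toWord.getD k (x, true)

/-- vertices along the loop -/
def vtx (x : α) (k : ℕ) : Option (α × ℕ) := if k = 0 ∨ nn θ x ≤ k then none else some (x, k)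

/-- start of a step of the subdivided rose -/
def sst (z : (Σ _ : α, ℕ) × Bool) : Option (α × ℕ) :=
  if z.2 = (wd θ z.1.1 z.1.2).2 then vtx θ z.1.1 z.1.2 else vtx θ z.1.1 (z.1.2 + 1)

/-- label of an edge of the subdivided rose -/
def slab (e : Σ _ : α, ℕ) : α := (wd θ e.1 e.2).1

/-- step number `k` of the loop of `x` -/
def stp (x : α) (k : ℕ) : (Σ _ : α, ℕ) × Bool := (⟨x, k⟩, (wd θ x k).2)

/-- the positive loop -/
def loopT (x : α) : List ((Σ _ : α, ℕ) × Bool) := (List.range (nn θ x)).map (stp θ x)

/-- the loop of a letter -/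
def loop (y : α × Bool) : List ((Σ _ : α, ℕ) × Bool) :=
  if y.2 then loopT θ y.1 else ((loopT θ y.1).map nv).reverse

/-- first step of a loop -/
def hdl (y : α × Bool) : (Σ _ : α, ℕ) × Bool :=
  if y.2 then stp θ y.1 0 else nv (stp θ y.1 (nn θ y.1 - 1))

lemma nn_pos (x : α) : 0 < nn θ x := by
  unfold nn
  rw [Nat.pos_iff_ne_zero]
  intro h
  rw [FreeGroup.norm_eq_zero] at h
  have : FreeGroup.of x = 1 := by
    apply θ.injective
    rw [h, _root_.map_one]
  exact FreeGroup.of_ne_one x this

lemma sst_stp (x : α) (k : ℕ) : sst θ (stp θ x k) = vtx θ x k := by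
  simp [sst, stp]

lemma sst_nv_stp (x : α) (k : ℕ) : sst θ (nv (stp θ x k)) = vtx θ x (k + 1) := by
  simp [sst, stp, nv]

lemma sst_hdl (y : α × Bool) : sst θ (hdl θ y) = none := by
  unfold hdl
  split_ifs
  · rw [sst_stp]; simp [vtx]
  · rw [sst_nv_stp]
    have := nn_pos θ y.1
    have h : nn θ y.1 - 1 + 1 = nn θ y.1 := by omega
    rw [h]; simp [vtx]

lemma hdl_inj {y y' : α × Bool} (h : hdl θ y = hdl θ y') : y = y' := by
  obtain ⟨x, b⟩ := y
  obtain ⟨x', b'⟩ := y'
  have h1 : x = x' := by
    have := congrArg (fun z => z.1.1) h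
    unfold hdl at this
    cases b <;> cases b' <;> simpa [stp, nv] using this
  subst h1
  cases b <;> cases b'
  · rfl
  · exfalso
    simp only [hdl, Bool.false_eq_true, if_false, if_true] at h
    have h2 := congrArg (fun z => z.1.2) h
    have h3 := congrArg (fun z => z.2) h
    simp only [stp, nv] at h2 h3
    rw [h2] at h3
    simp at h3
  · exfalso
    simp only [hdl, Bool.false_eq_true, if_false, if_true] at h
    have h2 := congrArg (fun z => z.1.2) h
    have h3 := congrArg (fun z => z.2) h
    simp only [stp, nv] at h2 h3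
    rw [← h2] at h3
    simp at h3
  · rfl

lemma loopT_ne (x : α) : loopT θ x ≠ [] := by
  unfold loopT
  have := nn_pos θ x
  simp only [ne_eq, List.map_eq_nil_iff, List.range_eq_nil]
  omega

lemma loop_ne (y : α × Bool) : loop θ y ≠ [] := by
  unfold loop
  split_ifs
  · exact loopT_ne θ _
  · simp only [ne_eq, List.reverse_eq_nil_iff, List.map_eq_nil_iff]
    exact loopT_ne θ _

lemma head_loopT (x : α) : (loopT θ x).head? = some (stp θ x 0) := by
  unfold loopT
  have := nn_pos θ x
  obtain ⟨m, hm⟩ : ∃ m, nn θ x = m + 1 := ⟨nn θ x - 1, by omega⟩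
  rw [hm, List.range_succ_eq_map]
  simp

lemma last_loopT (x : α) : (loopT θ x).getLast? = some (stp θ x (nn θ x - 1)) := by
  unfold loopT
  have := nn_pos θ x
  obtain ⟨m, hm⟩ : ∃ m, nn θ x = m + 1 := ⟨nn θ x - 1, by omega⟩
  rw [hm, List.range_succ]
  simp

lemma head_loop (y : α × Bool) : (loop θ y).head? = some (hdl θ y) := by
  unfold loop hdl
  split_ifs
  · exact head_loopT θ _
  · rw [List.head?_reverse, List.getLast?_map, last_loopT]
    rfl

lemma last_loop (y : α × Bool) : (loop θ y).getLast? = some (nv (hdl θ (nv y))) := by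
  obtain ⟨x, b⟩ := y
  unfold loop hdl
  cases b
  · simp only [Bool.false_eq_true, if_false, nv, Bool.not_false, if_true]
    rw [List.getLast?_reverse, List.head?_map, head_loopT]
    rfl
  · simp only [if_true, nv, Bool.not_true, Bool.false_eq_true, if_false, Bool.not_not]
    rw [last_loopT]

lemma RP_nv {ι V : Type} {st : ι × Bool → V} {x y : ι × Bool} (h : RP st x y) :
    RP st (nv y) (nv x) := by
  refine ⟨?_, ?_⟩
  · rw [nv_nv]; exact h.1.symm
  · rw [nv_nv]; exact h.2.symm

lemma chain_loopT (x : α) : (loopT θ x).IsChain (RP (sst θ)) := by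
  unfold loopT
  rw [List.isChain_iff_getElem]
  intro i hi
  simp only [List.getElem_map, List.getElem_range]
  refine ⟨?_, ?_⟩
  · rw [sst_nv_stp, sst_stp]
  · intro h
    have h2 := congrArg (fun z => z.1.2) h
    simp only [stp, nv] at h2
    omega

lemma chain_loop (y : α × Bool) : (loop θ y).IsChain (RP (sst θ)) := by
  unfold loop
  split_ifs
  · exact chain_loopT θ _
  · rw [List.isChain_reverse, List.isChain_map]
    exact (chain_loopT θ _).imp (fun a b h => RP_nv h)

/-- the path of a word -/
def pth (w : List (α × Bool)) : List ((Σ _ : α, ℕ) × Bool) := (w.map (loop θ)).flatten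

lemma chain_pth {w : List (α × Bool)} (hw : FreeGroup.IsReduced w) :
    (pth θ w).IsChain (RP (sst θ)) := by
  unfold pth
  rw [List.isChain_flatten]
  · refine ⟨?_, ?_⟩
    · intro l hl
      rw [List.mem_map] at hl
      obtain ⟨y, _, rfl⟩ := hl
      exact chain_loop θ y
    · rw [List.isChain_map]
      unfold FreeGroup.IsReduced at hw
      refine hw.imp ?_
      intro y y' h a ha c hc
      rw [last_loop, Option.mem_some_iff] at ha
      rw [head_loop, Option.mem_some_iff] at hc
      subst ha hc
      refine ⟨?_, ?_⟩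
      · rw [nv_nv, sst_hdl, sst_hdl]
      · rw [nv_nv]
        intro he
        have := hdl_inj θ he
        rw [this] at h
        have := h rfl
        simp [nv] at this
  · intro h
    rw [List.mem_map] at h
    obtain ⟨y, _, h⟩ := h
    exact loop_ne θ y h

lemma lb_loopT (x : α) : lb (slab θ) (loopT θ x) = θ (FreeGroup.of x) := by
  have : (loopT θ x).map (lt (slab θ)) = (θ (FreeGroup.of x)).toWord := by
    apply List.ext_getElem
    · simp [loopT, nn, FreeGroup.norm]
    · intro i h1 h2
      simp only [loopT, List.getElem_map, List.getElem_range, lt, slab, stp]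
      rw [Prod.mk.eta]
      unfold wd
      rw [List.getD_eq_getElem _ _ h2]
  unfold lb
  rw [this, FreeGroup.mk_toWord]

lemma lb_inv {ι : Type} (lab : ι → α) (L : List (ι × Bool)) :
    lb lab ((L.map nv).reverse) = (lb lab L)⁻¹ := by
  unfold lb
  rw [FreeGroup.inv_mk]
  congr 1
  unfold FreeGroup.invRev
  rw [List.map_reverse, List.map_map, List.map_map]
  rfl

lemma el_false' (x : α) : el (x, false) = (FreeGroup.of x)⁻¹ := by
  unfold el FreeGroup.of
  rw [FreeGroup.inv_mk]
  rfl

lemma lb_loop (y : α × Bool) : lb (slab θ) (loop θ y) = θ (el y) := by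
  obtain ⟨x, b⟩ := y
  unfold loop
  cases b
  · simp only [Bool.false_eq_true, if_false]
    rw [lb_inv, lb_loopT, el_false', _root_.map_inv]
  · simp only [if_true]
    rw [lb_loopT]
    rfl

lemma lb_pth (w : List (α × Bool)) : lb (slab θ) (pth θ w) = θ (FreeGroup.mk w) := by
  induction w with
  | nil =>
    simp only [pth, List.map_nil, List.flatten_nil, lb_nil]
    exact (_root_.map_one θ).symm
  | cons y w ih =>
    have h1 : pth θ (y :: w) = loop θ y ++ pth θ w := by simp [pth]
    have h2 : FreeGroup.mk (y :: w) = el y * FreeGroup.mk w := by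
      unfold el
      rw [FreeGroup.mul_mk]
      rfl
    rw [h1, lb_append, ih, lb_loop, h2, _root_.map_mul]

/-- sign -/
def sg (b : Bool) : ℤ := if b then 1 else -1

omit [DecidableEq α] in
lemma toAdd_hom (Q : FreeGroup α →* Multiplicative ℤ) (w : List (α × Bool)) :
    Multiplicative.toAdd (Q (FreeGroup.mk w)) =
      (w.map (fun y => sg y.2 * Multiplicative.toAdd (Q (FreeGroup.of y.1)))).sum := by
  induction w with
  | nil =>
    have : FreeGroup.mk ([] : List (α × Bool)) = 1 := rfl
    rw [this]; simp
  | cons y w ih =>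
    have h2 : FreeGroup.mk (y :: w) = el y * FreeGroup.mk w := by
      unfold el
      rw [FreeGroup.mul_mk]
      rfl
    rw [h2, _root_.map_mul, toAdd_mul, ih, List.map_cons, List.sum_cons]
    congr 1
    obtain ⟨x, b⟩ := y
    cases b
    · have : el (x, false) = (FreeGroup.of x)⁻¹ := by
        unfold el FreeGroup.of
        rw [FreeGroup.inv_mk]
        rfl
      rw [this, _root_.map_inv, toAdd_inv]
      simp [sg]
    · have : el (x, true) = FreeGroup.of x := rfl
      rw [this]
      simp [sg]

lemma sum_getD {β : Type} (f : β → ℤ) (d : β) (L : List β) :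
    ∑ k ∈ Finset.range L.length, f (L.getD k d) = (L.map f).sum := by
  induction L with
  | nil => simp
  | cons a L ih =>
    rw [List.length_cons, Finset.sum_range_succ', List.map_cons, List.sum_cons]
    simp only [List.getD_cons_succ, List.getD_cons_zero]
    rw [ih, add_comm]

lemma toAdd_theta (Q : FreeGroup α →* Multiplicative ℤ) (x : α) :
    Multiplicative.toAdd (Q (θ (FreeGroup.of x))) = ∑ k ∈ Finset.range (nn θ x),
      sg (wd θ x k).2 * Multiplicative.toAdd (Q (FreeGroup.of (wd θ x k).1)) := by
  unfold nn wd FreeGroup.norm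
  rw [sum_getD (fun y : α × Bool => sg y.2 * Multiplicative.toAdd (Q (FreeGroup.of y.1))) (x, true),
    ← toAdd_hom, FreeGroup.mk_toWord]

lemma slab_surj [Fintype α] (a : α) :
    ∃ e ∈ (Finset.univ : Finset α).sigma (fun x => Finset.range (nn θ x)), slab θ e = a := by
  by_contra hno
  push Not at hno
  set Q : FreeGroup α →* Multiplicative ℤ :=
    FreeGroup.lift (fun b => if b = a then Multiplicative.ofAdd (1 : ℤ) else 1) with hQ
  have h1 : ∀ x, Q (θ (FreeGroup.of x)) = 1 := by
    intro x
    apply Multiplicative.toAdd.injective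
    rw [toAdd_theta]
    rw [toAdd_one]
    apply Finset.sum_eq_zero
    intro k hk
    have h2 := hno ⟨x, k⟩ (by simpa using hk)
    simp only [slab] at h2
    rw [hQ, FreeGroup.lift_apply_of]
    simp [h2]
  have h2 : Q.comp θ.toMonoidHom = 1 := by
    ext x
    simpa using h1 x
  have h3 : Q (FreeGroup.of a) = 1 := by
    have := DFunLike.congr_fun h2 (θ.symm (FreeGroup.of a))
    simpa using this
  rw [hQ, FreeGroup.lift_apply_of] at h3
  simp only [if_true] at h3
  have := congrArg Multiplicative.toAdd h3
  simp at this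

lemma pot [Fintype α] (c : (Σ _ : α, ℕ) → ℤ) :
    ∃ (p : Option (α × ℕ) → ℤ) (q : α → ℤ),
      ∀ e ∈ (Finset.univ : Finset α).sigma (fun x => Finset.range (nn θ x)),
      c e = p (sst θ (e, false)) - p (sst θ (e, true)) + q (slab θ e) := by
  set C : α → ℤ := fun x => ∑ k ∈ Finset.range (nn θ x), sg (wd θ x k).2 * c ⟨x, k⟩ with hC
  set h : FreeGroup α →* Multiplicative ℤ :=
    FreeGroup.lift (fun x => Multiplicative.ofAdd (C x)) with hh
  set Q : FreeGroup α →* Multiplicative ℤ := h.comp θ.symm.toMonoidHom with hQ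
  set q : α → ℤ := fun a => Multiplicative.toAdd (Q (FreeGroup.of a)) with hq
  set P : α → ℕ → ℤ := fun x k => ∑ j ∈ Finset.range k,
    sg (wd θ x j).2 * (c ⟨x, j⟩ - q (slab θ ⟨x, j⟩)) with hP
  have hPn : ∀ x, P x (nn θ x) = 0 := by
    intro x
    have h1 : P x (nn θ x) = C x - ∑ k ∈ Finset.range (nn θ x),
        sg (wd θ x k).2 * q (slab θ ⟨x, k⟩) := by
      rw [hP, hC]
      simp only
      rw [← Finset.sum_sub_distrib]
      apply Finset.sum_congr rfl
      intro k _
      ring
    have h2 := toAdd_theta θ Q x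
    have h3 : Q (θ (FreeGroup.of x)) = Multiplicative.ofAdd (C x) := by
      rw [hQ]
      simp [hh]
    rw [h3, toAdd_ofAdd] at h2
    rw [h1, h2, sub_eq_zero]
    rfl
  set p : Option (α × ℕ) → ℤ := fun v => match v with
    | none => 0
    | some (x, k) => P x k with hp
  have hpv : ∀ x k, k ≤ nn θ x → p (vtx θ x k) = P x k := by
    intro x k hk
    unfold vtx
    split_ifs with h0
    · rcases h0 with h0 | h0
      · subst h0
        simp [hp, hP]
      · have : k = nn θ x := le_antisymm hk h0
        rw [this, hPn]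
    · rfl
  refine ⟨p, q, ?_⟩
  rintro ⟨x, k⟩ he
  simp only [Finset.mem_sigma, Finset.mem_univ, Finset.mem_range, true_and] at he
  have hs : P x (k + 1) = P x k + sg (wd θ x k).2 * (c ⟨x, k⟩ - q (slab θ ⟨x, k⟩)) := by
    rw [hP]
    simp only
    rw [Finset.sum_range_succ]
  cases hb : (wd θ x k).2
  · have e1 : sst θ (⟨x, k⟩, false) = vtx θ x k := by simp [sst, hb]
    have e2 : sst θ (⟨x, k⟩, true) = vtx θ x (k + 1) := by simp [sst, hb]
    rw [e1, e2, hpv x k he.le, hpv x (k + 1) he, hs, hb]
    simp only [sg, Bool.false_eq_true, if_false]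
    ring
  · have e1 : sst θ (⟨x, k⟩, true) = vtx θ x k := by simp [sst, hb]
    have e2 : sst θ (⟨x, k⟩, false) = vtx θ x (k + 1) := by simp [sst, hb]
    rw [e1, e2, hpv x k he.le, hpv x (k + 1) he, hs, hb]
    simp only [sg, if_true]
    ring

lemma mem_pth [Fintype α] (w : List (α × Bool)) : ∀ z ∈ pth θ w,
    z.1 ∈ (Finset.univ : Finset α).sigma (fun x => Finset.range (nn θ x)) := by
  intro z hz
  unfold pth at hz
  rw [List.mem_flatten] at hz
  obtain ⟨l, hl, hz⟩ := hz
  rw [List.mem_map] at hl
  obtain ⟨y, _, rfl⟩ := hl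
  have hT : ∀ x, ∀ z ∈ loopT θ x,
      z.1 ∈ (Finset.univ : Finset α).sigma (fun x => Finset.range (nn θ x)) := by
    intro x z hz
    unfold loopT at hz
    rw [List.mem_map] at hz
    obtain ⟨k, hk, rfl⟩ := hz
    rw [List.mem_range] at hk
    simpa [stp] using hk
  unfold loop at hz
  split_ifs at hz
  · exact hT _ z hz
  · rw [List.mem_reverse, List.mem_map] at hz
    obtain ⟨z', hz', rfl⟩ := hz
    exact hT _ z' hz'

end rose

theorem stmtBCC : Pool.Agent.Helper35.PX.StmtBCC := by
  intro α _ _ θ g h hgh
  have hw : (g * h).toWord = g.toWord ++ h.toWord := by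
    apply List.Sublist.eq_of_length (FreeGroup.toWord_mul_sublist g h)
    rw [List.length_append]
    exact hgh
  have hred : FreeGroup.IsReduced (g.toWord ++ h.toWord) := by
    rw [← hw]; exact FreeGroup.isReduced_toWord
  have happ : pth θ (g.toWord ++ h.toWord) = pth θ g.toWord ++ pth θ h.toWord := by
    simp [pth]
  have key := claim _ ((Finset.univ : Finset α).sigma (fun x => Finset.range (nn θ x)))
    (sst θ) (slab θ) rfl (slab_surj θ) (pot θ) (pth θ g.toWord) (pth θ h.toWord)
    (by rw [← happ]; exact chain_pth θ hred) (by rw [← happ]; exact mem_pth θ _)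
  rw [← happ, lb_pth, lb_pth, lb_pth, ← hw, FreeGroup.mk_toWord, FreeGroup.mk_toWord,
    FreeGroup.mk_toWord, Finset.card_sigma] at key
  simpa [nn] using key

end Pool.Agent.Helper89.PX
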